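import Pool.Agent.Q148.FreeG.Old
import Pool.Agent.Results.MP_ebea7e_gt.NotKR

/-!
# MP_02575e: a closed subgroup of a free topological `k_ℝ`-group which is not `k_ℝ`

`X ⊆ [0, ω₁] × βℕ` is the set of all points `(a, p)` with `a < ω₁` or `p ∈ ℕ`.  The free
topological group `F(X)` is a `k_ℝ`-space.  Its closed subgroup `H` is the preimage, under the
canonical map onto the free abelian topological group `A(X)`, of the subgroup generated by the
points `(ω₁, n)`.
-/

open Filter Topology
open Pool.Agent.Q148.FreeKR (L X tr continuous_tr tr_eq L_bd L_bot_lt A)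
open Pool.Agent.Q148.FreeG

namespace Pool.Agent.Results.MP_02575e_gt.NotKR

open Pool.Agent.Results.MP_ebea7e_gt.NotKR (y y_inj y_mem_H finite_of_compact isClosed_H)

/-- The closed subgroup of `A(X)` generated by the points `(ω₁, n)`. -/
noncomputable abbrev HA : AddSubgroup (A X) := Pool.Agent.Results.MP_ebea7e_gt.NotKR.H

/-- The canonical map onto the free abelian group. -/
noncomputable def ab : FreeGroup X →* Multiplicative (A X) :=
  FreeGroup.lift (fun x => Multiplicative.ofAdd (Pool.Agent.Q148.FreeKR.of x))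

theorem ab_of (x : X) : ab (FreeGroup.of x) = Multiplicative.ofAdd (Pool.Agent.Q148.FreeKR.of x) :=
  FreeGroup.lift_apply_of

theorem continuous_ab : Continuous ab := by
  apply continuous_lift
  exact continuous_ofAdd.comp Pool.Agent.Q148.FreeKR.continuous_of

/-- The closed subgroup `H`. -/
noncomputable def H : Subgroup (FreeGroup X) := (AddSubgroup.toSubgroup HA).comap ab

theorem mem_H (g : FreeGroup X) : g ∈ H ↔ Multiplicative.toAdd (ab g) ∈ HA := Iff.rfl

theorem isClosed_H' : IsClosed (H : Set (FreeGroup X)) :=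
  isClosed_H.preimage (continuous_toAdd.comp continuous_ab)

/-- Every neighbourhood of the identity contains a quotient of two different points `(ω₁, n)`. -/
theorem exists_diff (U : Set (FreeGroup X)) (hU : U ∈ 𝓝 (1 : FreeGroup X)) :
    ∃ m n, m ≠ n ∧ FreeGroup.of (y m) * (FreeGroup.of (y n))⁻¹ ∈ U := by
  obtain ⟨V, hV, hVU⟩ := exists_nhds_one_split4 hU
  have hV' : V⁻¹ ∈ 𝓝 (1 : FreeGroup X) := inv_mem_nhds_one _ hV
  -- points `(a, n)` near `(ω₁, n)`
  have h1 : ∀ n : ℕ, ∃ b, b < ⊤ ∧ ∀ a, b < a → a ≤ ⊤ →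
      FreeGroup.of (tr a (y n)) * (FreeGroup.of (y n))⁻¹ ∈ V ∩ V⁻¹ := by
    intro n
    have hc : Continuous (fun a : L => FreeGroup.of (tr a (y n)) * (FreeGroup.of (y n))⁻¹) := by
      refine (continuous_of.comp ?_).mul continuous_const
      exact continuous_tr.comp (continuous_id.prodMk continuous_const)
    have h2 : Tendsto (fun a : L => FreeGroup.of (tr a (y n)) * (FreeGroup.of (y n))⁻¹)
        (𝓝 ⊤) (𝓝 1) := by
      have := hc.tendsto ⊤
      rw [tr_eq ⊤ (y n) le_top, mul_inv_cancel] at this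
      exact this
    have h3 := h2 (inter_mem hV hV')
    obtain ⟨b, hb, hbU⟩ := exists_Ioc_subset_of_mem_nhds h3 ⟨⊥, L_bot_lt⟩
    exact ⟨b, hb, fun a hba ha => hbU ⟨hba, ha⟩⟩
  choose b hb hbV using h1
  obtain ⟨c, hc, hcb⟩ := L_bd b hb
  -- the points `(c, q)`
  let w : Ultrafilter ℕ → X := fun q => ⟨(c, q), Or.inl hc⟩
  have hwc : Continuous w := (continuous_const.prodMk continuous_id).subtype_mk _
  have hw : ∀ n, w (pure n) = tr c (y n) := by
    intro n
    apply Subtype.ext
    refine Prod.ext ?_ rfl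
    show c = min ⊤ c
    rw [min_eq_right le_top]
  let p : Ultrafilter ℕ := hyperfilter ℕ
  have h4 : Tendsto (fun q => FreeGroup.of (w q) * (FreeGroup.of (w p))⁻¹) (𝓝 p) (𝓝 1) := by
    have : Continuous (fun q => FreeGroup.of (w q) * (FreeGroup.of (w p))⁻¹) :=
      (continuous_of.comp hwc).mul continuous_const
    simpa using this.tendsto p
  have h5 : Tendsto (fun n : ℕ => FreeGroup.of (w (pure n)) * (FreeGroup.of (w p))⁻¹)
      (p : Filter ℕ) (𝓝 1) := h4.comp (Ultrafilter.tendsto_pure_self p)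
  have h6 : ∀ᶠ n in (p : Filter ℕ), FreeGroup.of (w (pure n)) * (FreeGroup.of (w p))⁻¹ ∈
      V ∩ V⁻¹ := h5 (inter_mem hV hV')
  obtain ⟨m, hm⟩ := h6.exists
  have h7 : ∀ᶠ n in (p : Filter ℕ), n ≠ m := by
    have : ({m}ᶜ : Set ℕ) ∈ (hyperfilter ℕ : Filter ℕ) :=
      Set.Finite.compl_mem_hyperfilter (Set.finite_singleton m)
    exact this
  obtain ⟨n, hn, hnm⟩ := (h6.and h7).exists
  refine ⟨m, n, hnm.symm, ?_⟩
  have h8 := hbV m c (hcb m) le_top
  have h9 := hbV n c (hcb n) le_top
  rw [← hw] at h8 h9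
  have h10 := hVU h8.2 hm.1 hn.2 h9.1
  convert h10 using 1
  group

theorem ab_diff (m n : ℕ) : Multiplicative.toAdd
    (ab (FreeGroup.of (y m) * (FreeGroup.of (y n))⁻¹)) =
      Pool.Agent.Q148.FreeKR.of (y m) - Pool.Agent.Q148.FreeKR.of (y n) := by
  rw [map_mul, map_inv, ab_of, ab_of, toAdd_mul, toAdd_inv, toAdd_ofAdd, toAdd_ofAdd,
    sub_eq_add_neg]

theorem diff_mem (m n : ℕ) : FreeGroup.of (y m) * (FreeGroup.of (y n))⁻¹ ∈ H := by
  rw [mem_H, ab_diff]
  exact HA.sub_mem (y_mem_H m) (y_mem_H n)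

theorem not_kR_H : ¬ IsKRSpace H := by
  classical
  intro hkr
  let π : H → A X := fun g => Multiplicative.toAdd (ab g.1)
  have hπ : Continuous π := (continuous_toAdd.comp continuous_ab).comp continuous_subtype_val
  have h1 := hkr (fun g => if π g = 0 then 1 else 0) (by
    intro K hK
    have hfin : (π '' K).Finite := by
      apply finite_of_compact _ (hK.image hπ)
      rintro _ ⟨g, _, rfl⟩
      exact g.2
    have : T2Space (A X) := Pool.Agent.Q148.FreeKR.t2_A
    have hdisc : DiscreteTopology (π '' K) := by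
      have := hfin.to_subtype
      infer_instance
    rw [continuousOn_iff_continuous_domRestrict]
    have h2 : Continuous (fun g : K => (⟨π g.1, g.1, g.2, rfl⟩ : (π '' K))) :=
      (hπ.comp continuous_subtype_val).subtype_mk _
    have h3 : Continuous (fun a : (π '' K) => if a.1 = 0 then (1 : ℝ) else 0) :=
      continuous_of_discreteTopology
    exact h3.comp h2)
  have h2 : IsOpen {g : H | (if π g = 0 then (1 : ℝ) else 0) > 1 / 2} :=
    isOpen_Ioi.preimage h1
  have h3 : {g : H | (if π g = 0 then (1 : ℝ) else 0) > 1 / 2} ∈ 𝓝 (1 : H) := by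
    apply h2.mem_nhds
    show (if π 1 = 0 then (1 : ℝ) else 0) > 1 / 2
    have : π 1 = 0 := by
      show Multiplicative.toAdd (ab 1) = 0
      rw [map_one, toAdd_one]
    rw [if_pos this]
    norm_num
  obtain ⟨U, hU, hUsub⟩ := (mem_nhds_induced _ _ _).1 h3
  obtain ⟨m, n, hmn, hmem⟩ := exists_diff U hU
  have h4 := hUsub (show (⟨_, diff_mem m n⟩ : H) ∈ Subtype.val ⁻¹' U from hmem)
  have h5 : π ⟨_, diff_mem m n⟩ ≠ 0 := by
    intro h
    have h6 : Pool.Agent.Q148.FreeKR.of (y m) - Pool.Agent.Q148.FreeKR.of (y n) = 0 := by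
      rw [← ab_diff]
      exact h
    rw [sub_eq_zero] at h6
    have h7 := congrArg (fun f : A X => f (y m)) h6
    simp only [Pool.Agent.Q148.FreeKR.of, Finsupp.single_apply] at h7
    rw [if_pos trivial, if_neg] at h7
    · exact one_ne_zero h7
    · intro h8
      exact hmn (y_inj h8).symm
  have h6 : (if π ⟨_, diff_mem m n⟩ = 0 then (1 : ℝ) else 0) > 1 / 2 := h4
  rw [if_neg h5] at h6
  norm_num at h6

theorem separated_of_lt {x z : X} (h : x.1.1 < z.1.1) :
    ∃ U : Set X, IsClopen U ∧ x ∈ U ∧ z ∈ Uᶜ := by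
  have hc : Continuous (fun x : X => x.1.1) := continuous_fst.comp continuous_subtype_val
  refine ⟨{w | w.1.1 ≤ x.1.1}, ⟨isClosed_Iic.preimage hc, ?_⟩,
    show x.1.1 ≤ x.1.1 from le_rfl, not_le.2 h⟩
  exact (Pool.Agent.Q148.FreeKR.L_open x.1.1 (lt_of_lt_of_le h le_top)).preimage hc

theorem totallySeparated_X : TotallySeparatedSpace X := by
  rw [totallySeparatedSpace_iff_exists_isClopen]
  intro x z hxz
  rcases lt_trichotomy x.1.1 z.1.1 with h | h | h
  · exact separated_of_lt h
  · have hne : x.1.2 ≠ z.1.2 := fun h' => hxz (Subtype.ext (Prod.ext h h'))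
    obtain ⟨D, hD1, hD2⟩ := Pool.Agent.Results.MP_ebea7e_gt.NotKR.separate x.1.2 {z.1.2}
    have hc : Continuous (fun x : X => x.1.2) := continuous_snd.comp continuous_subtype_val
    refine ⟨{w | D ∈ w.1.2}, ⟨(ultrafilter_isClosed_basic D).preimage hc,
      (ultrafilter_isOpen_basic D).preimage hc⟩, hD1, ?_⟩
    intro h'
    exact hne (hD2 z.1.2 (by simp) h').symm
  · obtain ⟨U, hU, h1, h2⟩ := separated_of_lt h
    exact ⟨Uᶜ, hU.compl, h2, by simpa using h1⟩

/-- There are a Tychonoff space `X` whose free topological group `F(X)` is a `k_ℝ`-space, and a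
closed subgroup `H` of `F(X)` which is not a `k_ℝ`-space. -/
theorem result : ∃ (X : Type) (_ : TopologicalSpace X) (t : TopologicalSpace (FreeGroup X))
    (H : Subgroup (FreeGroup X)), T35Space X ∧ IsFreeTopology X t ∧
    IsKRSpace (FreeGroup X) ∧ IsClosed (H : Set (FreeGroup X)) ∧ ¬ IsKRSpace H :=
  ⟨X, inferInstance, freeTop X, H, inferInstance,
    @isFreeTopology X _ _ totallySeparated_X, Old.isKR, isClosed_H', not_kR_H⟩

end Pool.Agent.Results.MP_02575e_gt.NotKR
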